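import Pool.Graph.R_seed8.Y508.FP.Stm2

/-!
# Farthest points on closed curves in inner product spaces: statements of the parts

The statements of `Pool.Graph.R_seed8.Y508.FP.Stm`, with an inner product space `H` in place of `ℝ^d`.
-/

set_option autoImplicit false
open MeasureTheory Metric Set Filter Topology
open Real (sin cos)

universe u

namespace Pool.Agent.KS676.FPH
open Pool.Agent.Y508 Pool.Agent.Y508.FP

/-- approximation with error `ε` of a closed curve `C` of length at most `ℓ`, all of whose points have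
farthest points at distance `≥ 1`, by a plane polygon -/
structure Apx (H : Type u) [NormedAddCommGroup H] [InnerProductSpace ℝ H] (C : Set H) (ℓ ε : ℝ) (n : ℕ) (z : ℕ → E2)
    (w : ℕ → H) : Prop where
  pos : 1 ≤ n
  noalt : NoAlt n z
  mem : ∀ i < n, w i ∈ C
  edge : ∀ i, i + 1 < n → dist (z i) (z (i + 1)) ≤ ε
  edge0 : dist (z (n - 1)) (z 0) ≤ ε
  lip : ∀ i < n, ∀ j < n, dist (w i) (w j) ≤ dist (z i) (z j) + ε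
  far : ∀ i < n, ∃ j < n, 1 - ε ≤ dist (w i) (w j)
  per : W (z '' Iio n) ≤ ℓ
  bd : ∀ i < n, z i ∈ closedBall (0 : E2) (ℓ / 4 + ε)

def ApxStm : Prop := ∀ (H : Type u) [NormedAddCommGroup H] [InnerProductSpace ℝ H] (γ : ℝ → H) (ℓ : ℝ), 0 ≤ ℓ →
  ContinuousOn γ (Icc 0 1) → γ 0 = γ 1 → eVariationOn γ (Icc 0 1) ≤ ENNReal.ofReal ℓ →
  (∀ s ∈ Icc (0 : ℝ) 1, ∃ t ∈ Icc (0 : ℝ) 1, 1 ≤ dist (γ s) (γ t)) →
  ∀ ε > 0, ∃ (n : ℕ) (z : ℕ → E2) (w : ℕ → H),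
    Apx H (γ '' Icc 0 1) ℓ ε n z w

/-- the limit object: `T` carries a map `c` to `C` which does not increase distances -/
structure Lim (H : Type u) [NormedAddCommGroup H] [InnerProductSpace ℝ H] (C : Set H) (ℓ : ℝ) (T : Set E2)
    (c : E2 → H) : Prop where
  cpt : IsCompact T
  ne : T.Nonempty
  fr : frontier (convexHull ℝ T) ⊆ T
  lip : ∀ p ∈ T, ∀ q ∈ T, dist (c p) (c q) ≤ dist p q
  far : ∀ p ∈ T, ∃ q ∈ T, 1 ≤ dist (c p) (c q)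
  mem : ∀ p ∈ T, c p ∈ C
  bd : T ⊆ closedBall (0 : E2) (ℓ / 4)
  per : W (convexHull ℝ T) ≤ ℓ

def LimStm : Prop := ∀ (H : Type u) [NormedAddCommGroup H] [InnerProductSpace ℝ H] (C : Set H) (ℓ : ℝ), 0 ≤ ℓ → IsCompact C →
  (∀ ε > 0, ∃ (n : ℕ) (z : ℕ → E2) (w : ℕ → H), Apx H C ℓ ε n z w) →
  ∃ (T : Set E2) (c : E2 → H), Lim H C ℓ T c

def GeoStm : Prop := ∀ (H : Type u) [NormedAddCommGroup H] [InnerProductSpace ℝ H] (f : ℝ → H), (∀ θ, ‖f θ‖ = 1) →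
  (∀ θ φ : ℝ, dist (f θ) (f φ) ≤ |θ - φ|) → f Real.pi = -f 0 →
  inner ℝ (f 0) (f (Real.pi / 2)) = 0 ∧
    ∀ θ ∈ Icc (0 : ℝ) Real.pi, f θ = cos θ • f 0 + sin θ • f (Real.pi / 2)

/-- all unit vectors of a plane are differences of two points of `C` -/
def Dirs (H : Type u) [NormedAddCommGroup H] [InnerProductSpace ℝ H] (C : Set H) (e₁ e₂ : H) : Prop :=
  ‖e₁‖ = 1 ∧ ‖e₂‖ = 1 ∧ inner ℝ e₁ e₂ = 0 ∧
    ∀ θ : ℝ, ∃ p ∈ C, ∃ q ∈ C, p - q = cos θ • e₁ + sin θ • e₂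

def RigStm : Prop := ∀ (H : Type u) [NormedAddCommGroup H] [InnerProductSpace ℝ H] (C : Set H) (ℓ : ℝ) (T : Set E2)
  (c : E2 → H), Lim H C ℓ T c →
  (∀ θ, hs (convexHull ℝ T) θ + hs (convexHull ℝ T) (θ + Real.pi) = 1) → ∃ e₁ e₂, Dirs H C e₁ e₂

def PytStm : Prop := ∀ (H : Type u) [NormedAddCommGroup H] [InnerProductSpace ℝ H] (γ : ℝ → H) (e₁ e₂ : H),
  ‖e₁‖ = 1 → ‖e₂‖ = 1 → inner ℝ e₁ e₂ = (0 : ℝ) →
  eVariationOn γ (Icc 0 1) ≠ ⊤ →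
  eVariationOn γ (Icc 0 1) ≤
    eVariationOn (fun t => pt (inner ℝ e₁ (γ t)) (inner ℝ e₂ (γ t))) (Icc 0 1) →
  ∀ s ∈ Icc (0 : ℝ) 1, ∀ t ∈ Icc (0 : ℝ) 1,
    γ t - γ s = (inner ℝ e₁ (γ t - γ s) : ℝ) • e₁ + (inner ℝ e₂ (γ t - γ s) : ℝ) • e₂

/-- `C` is the relative boundary of a plane convex body of constant width one -/
def CWB (H : Type u) [NormedAddCommGroup H] [InnerProductSpace ℝ H] (C : Set H) : Prop :=
  ∃ (ι : EuclideanSpace ℝ (Fin 2) →ᵃⁱ[ℝ] H) (K : Set (EuclideanSpace ℝ (Fin 2))),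
    IsCompact K ∧ Convex ℝ K ∧
    (∀ v : EuclideanSpace ℝ (Fin 2), ‖v‖ = 1 →
      sSup ((fun x => inner ℝ v x) '' K) - sInf ((fun x => inner ℝ v x) '' K) = (1 : ℝ)) ∧
    C = ι '' frontier K

def FinStm : Prop := ∀ (H : Type u) [NormedAddCommGroup H] [InnerProductSpace ℝ H] (γ : ℝ → H) (e₁ e₂ : H),
  ContinuousOn γ (Icc 0 1) → γ 0 = γ 1 → eVariationOn γ (Icc 0 1) = ENNReal.ofReal Real.pi →
  Dirs H (γ '' Icc 0 1) e₁ e₂ → CWB H (γ '' Icc 0 1)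

def IfStm : Prop := ∀ (H : Type u) [NormedAddCommGroup H] [InnerProductSpace ℝ H] (C : Set H), CWB H C →
  ∀ x ∈ C, ∃ y ∈ C, 1 ≤ dist x y

/-- the main theorem -/
def MainStm : Prop := ∀ (H : Type u) [NormedAddCommGroup H] [InnerProductSpace ℝ H] (γ : ℝ → H), ContinuousOn γ (Icc 0 1) →
  γ 0 = γ 1 → eVariationOn γ (Icc 0 1) = ENNReal.ofReal Real.pi →
  (∃ x ∈ γ '' Icc 0 1, ∀ y ∈ γ '' Icc 0 1, dist x y ≤ 1) ∧
  ((∀ x ∈ γ '' Icc 0 1, ∃ y ∈ γ '' Icc 0 1, 1 ≤ dist x y) ↔ CWB H (γ '' Icc 0 1))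

/-- as `ApxStm`, the points `w i` being moreover dense up to `ε` -/
def Apx2Stm : Prop := ∀ (H : Type u) [NormedAddCommGroup H] [InnerProductSpace ℝ H] (γ : ℝ → H) (ℓ : ℝ), 0 ≤ ℓ →
  ContinuousOn γ (Icc 0 1) → γ 0 = γ 1 → eVariationOn γ (Icc 0 1) ≤ ENNReal.ofReal ℓ →
  (∀ s ∈ Icc (0 : ℝ) 1, ∃ t ∈ Icc (0 : ℝ) 1, 1 ≤ dist (γ s) (γ t)) →
  ∀ ε > 0, ∃ (n : ℕ) (z : ℕ → E2) (w : ℕ → H),
    Apx H (γ '' Icc 0 1) ℓ ε n z w ∧ ∀ v ∈ γ '' Icc 0 1, ∃ i < n, dist v (w i) ≤ ε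

/-- as `LimStm`, the map `c` being moreover onto `C` -/
def Lim2Stm : Prop := ∀ (H : Type u) [NormedAddCommGroup H] [InnerProductSpace ℝ H] (C : Set H) (ℓ : ℝ), 0 ≤ ℓ → IsCompact C →
  (∀ ε > 0, ∃ (n : ℕ) (z : ℕ → E2) (w : ℕ → H), Apx H C ℓ ε n z w ∧
    ∀ v ∈ C, ∃ i < n, dist v (w i) ≤ ε) →
  ∃ (T : Set E2) (c : E2 → H), Lim H C ℓ T c ∧ ∀ v ∈ C, ∃ p ∈ T, c p = v

end Pool.Agent.KS676.FPH
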