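import Pool.Graph.R_seed8.Y508.FP.Fn
import Pool.Agent.KS6_76.FPH.Stm

/-!
# End of the proof in the case of equality
-/

set_option autoImplicit false
open MeasureTheory Metric Set Filter Topology
open Real (sin cos)

universe u

namespace Pool.Agent.KS676.FPH
open Pool.Agent.Y508 Pool.Agent.Y508.FP

namespace Fn

/-- the plane of two orthonormal vectors -/
noncomputable def plane {H : Type u} [NormedAddCommGroup H] [InnerProductSpace ℝ H] (e₁ e₂ : H) (h1 : ‖e₁‖ = 1) (h2 : ‖e₂‖ = 1)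
    (h3 : inner ℝ e₁ e₂ = (0 : ℝ)) : E2 →ₗᵢ[ℝ] H where
  toFun z := z 0 • e₁ + z 1 • e₂
  map_add' x y := by
    simp only [PiLp.add_apply, add_smul]
    abel
  map_smul' c x := by
    simp only [PiLp.smul_apply, smul_eq_mul, RingHom.id_apply, smul_add, smul_smul]
  norm_map' z := by
    show ‖z 0 • e₁ + z 1 • e₂‖ = ‖z‖
    have h4 : ‖z 0 • e₁ + z 1 • e₂‖ ^ 2 = ‖z‖ ^ 2 := by
      rw [norm_add_sq_real, norm_smul, norm_smul, h1, h2, real_inner_smul_left,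
        real_inner_smul_right, h3, norm_sq_E2]
      simp
    exact (pow_left_inj₀ (norm_nonneg _) (norm_nonneg _) two_ne_zero).1 h4

/-- coordinates -/
noncomputable def co {H : Type u} [NormedAddCommGroup H] [InnerProductSpace ℝ H] (e₁ e₂ x : H) : E2 :=
  pt (inner ℝ e₁ x) (inner ℝ e₂ x)

theorem co_sub {H : Type u} [NormedAddCommGroup H] [InnerProductSpace ℝ H] (e₁ e₂ x y : H) :
    co e₁ e₂ x - co e₁ e₂ y = co e₁ e₂ (x - y) := by
  ext i
  fin_cases i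
  · show inner ℝ e₁ x - inner ℝ e₁ y = inner ℝ e₁ (x - y)
    rw [inner_sub_right]
  · show inner ℝ e₂ x - inner ℝ e₂ y = inner ℝ e₂ (x - y)
    rw [inner_sub_right]

theorem norm_co_le {H : Type u} [NormedAddCommGroup H] [InnerProductSpace ℝ H] {e₁ e₂ : H} (h1 : ‖e₁‖ = 1) (h2 : ‖e₂‖ = 1)
    (h3 : inner ℝ e₁ e₂ = (0 : ℝ)) (x : H) : ‖co e₁ e₂ x‖ ≤ ‖x‖ := by
  have h4 : ‖co e₁ e₂ x‖ ^ 2 = (inner ℝ e₁ x) ^ 2 + (inner ℝ e₂ x) ^ 2 := norm_sq_E2 _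
  have h5 : 0 ≤ ‖x - ((inner ℝ e₁ x : ℝ) • e₁ + (inner ℝ e₂ x : ℝ) • e₂)‖ ^ 2 := sq_nonneg _
  have h6 : ‖(inner ℝ e₁ x : ℝ) • e₁ + (inner ℝ e₂ x : ℝ) • e₂‖ ^ 2 =
      (inner ℝ e₁ x) ^ 2 + (inner ℝ e₂ x) ^ 2 := by
    have := (plane e₁ e₂ h1 h2 h3).norm_map (co e₁ e₂ x)
    have h7 : ‖(inner ℝ e₁ x : ℝ) • e₁ + (inner ℝ e₂ x : ℝ) • e₂‖ = ‖co e₁ e₂ x‖ := this
    rw [h7, h4]
  rw [norm_sub_sq_real, h6, inner_add_right, real_inner_smul_right, real_inner_smul_right,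
    real_inner_comm e₁ x, real_inner_comm e₂ x] at h5
  have h7 : ‖co e₁ e₂ x‖ ^ 2 ≤ ‖x‖ ^ 2 := by
    rw [h4]
    nlinarith
  exact (pow_le_pow_iff_left₀ (norm_nonneg _) (norm_nonneg _) two_ne_zero).1 h7

theorem lip_co {H : Type u} [NormedAddCommGroup H] [InnerProductSpace ℝ H] {e₁ e₂ : H} (h1 : ‖e₁‖ = 1) (h2 : ‖e₂‖ = 1)
    (h3 : inner ℝ e₁ e₂ = (0 : ℝ)) : LipschitzWith 1 (co e₁ e₂) := by
  refine LipschitzWith.of_dist_le_mul fun x y => ?_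
  rw [dist_eq_norm, dist_eq_norm, co_sub, NNReal.coe_one, one_mul]
  exact norm_co_le h1 h2 h3 _

end Fn

open Pool.Agent.KS676.FPH.Fn in
open Pool.Agent.Y508.FP.Fn (compact_hull width_one frontier_sub hs_hull) in
theorem fin (h1 : CroStm) (h2 : Cro2Stm) (h3 : PytStm.{u}) : FinStm.{u} := by
  intro H _ _ γ e₁ e₂ hγ hclosed hvar hD
  obtain ⟨n1, n2, n12, hdirs⟩ := hD
  have hlip := lip_co n1 n2 n12
  obtain ⟨ζ, hζ⟩ : ∃ ζ : ℝ → E2, ζ = fun t => co e₁ e₂ (γ t) := ⟨_, rfl⟩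
  have hζc : ContinuousOn ζ (Icc 0 1) := by
    rw [hζ]; exact hlip.continuous.comp_continuousOn hγ
  have hζ01 : ζ 0 = ζ 1 := by rw [hζ]; simp only [hclosed]
  have hζv : eVariationOn ζ (Icc 0 1) ≤ eVariationOn γ (Icc 0 1) := by
    have := (hlip.lipschitzOnWith (s := univ)).comp_eVariationOn_le (g := γ) (s := Icc 0 1)
      (mapsTo_univ _ _)
    rw [hζ]
    simpa [Function.comp_def] using this
  have hR : IsCompact (ζ '' Icc 0 1) := isCompact_Icc.image_of_continuousOn hζc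
  have hne : (ζ '' Icc (0 : ℝ) 1).Nonempty := (nonempty_Icc.2 zero_le_one).image _
  have hK := compact_hull hR
  have hKc := convex_convexHull ℝ (ζ '' Icc 0 1)
  have hKne := hne.convexHull (𝕜 := ℝ)
  have hwid : ∀ θ, 1 ≤ hs (ζ '' Icc 0 1) θ + hs (ζ '' Icc 0 1) (θ + Real.pi) := by
    intro θ
    obtain ⟨p, ⟨s, hs', rfl⟩, q, ⟨t, ht, rfl⟩, hpq⟩ := hdirs θ
    have e1 : ζ s - ζ t = ev θ := by
      rw [hζ]
      show co e₁ e₂ (γ s) - co e₁ e₂ (γ t) = ev θ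
      rw [co_sub, hpq]
      unfold co ev
      rw [inner_add_right, inner_add_right, real_inner_smul_right, real_inner_smul_right,
        real_inner_smul_right, real_inner_smul_right, real_inner_self_eq_norm_sq,
        real_inner_self_eq_norm_sq, n1, n2, n12, real_inner_comm, n12]
      simp
    have h4 := le_hs hR (mem_image_of_mem ζ hs') θ
    have h5 := le_hs hR (mem_image_of_mem ζ ht) (θ + Real.pi)
    rw [ip_add_pi] at h5
    have h6 : ip (ζ s - ζ t) θ = 1 := by rw [e1, ip_ev, sub_self, Real.cos_zero]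
    rw [ip_sub] at h6
    linarith
  have hWle : W (ζ '' Icc 0 1) ≤ Real.pi :=
    h1 ζ Real.pi Real.pi_pos.le hζc hζ01 (hζv.trans hvar.le)
  obtain ⟨hWpi, hw1⟩ := width_one hR hwid hWle
  have hw1' : ∀ θ, hs (convexHull ℝ (ζ '' Icc 0 1)) θ +
      hs (convexHull ℝ (ζ '' Icc 0 1)) (θ + Real.pi) = 1 := by
    intro θ
    rw [hs_hull hR hne, hs_hull hR hne]
    exact hw1 θ
  have hfr := frontier_sub hR hne hw1'
  have hfr2 := h2 ζ hζc hζ01 (by rw [hWpi]; exact hζv.trans hvar.le) hfr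
  have hRfr : ζ '' Icc 0 1 = frontier (convexHull ℝ (ζ '' Icc 0 1)) := subset_antisymm hfr2 hfr
  have hvt : eVariationOn ζ (Icc 0 1) ≠ ⊤ :=
    ne_top_of_le_ne_top (by rw [hvar]; exact ENNReal.ofReal_ne_top) hζv
  have hvle : eVariationOn γ (Icc 0 1) ≤ eVariationOn ζ (Icc 0 1) := by
    have h4 := h1 ζ (eVariationOn ζ (Icc 0 1)).toReal ENNReal.toReal_nonneg hζc hζ01
      (by rw [ENNReal.ofReal_toReal hvt])
    rw [hWpi] at h4
    rw [hvar, ← ENNReal.ofReal_toReal hvt]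
    exact ENNReal.ofReal_le_ofReal h4
  have hpyt := h3 H γ e₁ e₂ n1 n2 n12 (by rw [hvar]; exact ENNReal.ofReal_ne_top)
    (by rw [hζ] at hvle; exact hvle)
  obtain ⟨Q, hQ⟩ : ∃ Q, Q = γ 0 - ((inner ℝ e₁ (γ 0) : ℝ) • e₁ + (inner ℝ e₂ (γ 0) : ℝ) • e₂) :=
    ⟨_, rfl⟩
  have hrep : ∀ t ∈ Icc (0 : ℝ) 1, γ t = Q + plane e₁ e₂ n1 n2 n12 (ζ t) := by
    intro t ht
    have h4 := hpyt 0 (left_mem_Icc.2 zero_le_one) t ht
    have h5 : plane e₁ e₂ n1 n2 n12 (ζ t) =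
        (inner ℝ e₁ (γ t) : ℝ) • e₁ + (inner ℝ e₂ (γ t) : ℝ) • e₂ := by
      rw [hζ]; rfl
    rw [h5, hQ]
    rw [inner_sub_right, inner_sub_right, sub_smul, sub_smul] at h4
    have h6 : γ t = (γ t - γ 0) + γ 0 := by abel
    rw [h6]
    nth_rewrite 1 [h4]
    abel_nf
  refine ⟨(AffineIsometryEquiv.constVAdd ℝ _ Q).toAffineIsometry.comp
    (plane e₁ e₂ n1 n2 n12).toAffineIsometry, convexHull ℝ (ζ '' Icc 0 1), hK, hKc, ?_, ?_⟩
  · intro v hv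
    obtain ⟨θ, rfl⟩ := exists_ev v hv
    have h4 : ∀ x : E2, inner ℝ (ev θ) x = ip x θ := fun x => by
      rw [real_inner_comm, inner_ev]
    simp only [h4]
    have h5 : sInf ((fun x : E2 => ip x θ) '' convexHull ℝ (ζ '' Icc 0 1)) =
        - hs (convexHull ℝ (ζ '' Icc 0 1)) (θ + Real.pi) := by
      rw [Real.sInf_def]
      unfold hs
      congr 2
      ext r
      simp only [Set.mem_neg, mem_image, ip_add_pi]
      constructor
      · rintro ⟨x, hx, hxe⟩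
        exact ⟨x, hx, by rw [hxe, neg_neg]⟩
      · rintro ⟨x, hx, hxe⟩
        exact ⟨x, hx, by rw [← hxe, neg_neg]⟩
    rw [h5, sub_neg_eq_add]
    exact hw1' θ
  · rw [← hRfr, image_image]
    refine image_congr fun t ht => ?_
    rw [hrep t ht]
    rfl

end Pool.Agent.KS676.FPH
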