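import Pool.Graph.R_seed8.Y508.FP.Lm
import Pool.Agent.KS6_76.FPH.Stm

/-!
# Limit of the approximating polygons, in an inner product space
-/

set_option autoImplicit false
open MeasureTheory Metric Set Filter Topology
open Real (sin cos)

universe u

namespace Pool.Agent.KS676.FPH
open Pool.Agent.Y508 Pool.Agent.Y508.FP

namespace Lm
open Pool.Agent.Y508.FP.Lm

section
variable {H : Type u} [NormedAddCommGroup H] [InnerProductSpace ℝ H] {C : Set H} {ℓ : ℝ} {n : ℕ → ℕ} {z : ℕ → ℕ → E2}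
  {w : ℕ → ℕ → H}

theorem zbd (h : ∀ k : ℕ, Apx H C ℓ (1 / ((k : ℝ) + 1)) (n k) (z k) (w k)) (i : ℕ → ℕ)
    (hi : ∀ k, i k < n k) (k : ℕ) : z k (i k) ∈ closedBall (0 : E2) (ℓ / 4 + 1) :=
  closedBall_subset_closedBall (by linarith [eps_le k]) ((h k).bd (i k) (hi k))

/-- limits of index sequences -/
theorem ilim (U : Ultrafilter ℕ) (h : ∀ k : ℕ, Apx H C ℓ (1 / ((k : ℝ) + 1)) (n k) (z k) (w k)) (i : ℕ → ℕ)
    (hi : ∀ k, i k < n k) : ∃ p ∈ TT U n z, Tendsto (fun k => z k (i k)) U (𝓝 p) := by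
  obtain ⟨p, -, hp⟩ := ulim U (isCompact_closedBall (0 : E2) (ℓ / 4 + 1)) (fun k => z k (i k))
    (zbd h i hi)
  exact ⟨p, ⟨i, hi, hp⟩, hp⟩

theorem wlim (U : Ultrafilter ℕ) (hC : IsCompact C)
    (h : ∀ k : ℕ, Apx H C ℓ (1 / ((k : ℝ) + 1)) (n k) (z k) (w k)) (i : ℕ → ℕ)
    (hi : ∀ k, i k < n k) : ∃ a ∈ C, Tendsto (fun k => w k (i k)) U (𝓝 a) :=
  ulim U hC (fun k => w k (i k)) (fun k => (h k).mem (i k) (hi k))

theorem lipseq (U : Ultrafilter ℕ) (hU : (U : Filter ℕ) ≤ atTop)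
    (h : ∀ k : ℕ, Apx H C ℓ (1 / ((k : ℝ) + 1)) (n k) (z k) (w k)) (i j : ℕ → ℕ)
    (hi : ∀ k, i k < n k) (hj : ∀ k, j k < n k) (p q : E2) (a b : H)
    (h1 : Tendsto (fun k => z k (i k)) U (𝓝 p)) (h2 : Tendsto (fun k => z k (j k)) U (𝓝 q))
    (h3 : Tendsto (fun k => w k (i k)) U (𝓝 a)) (h4 : Tendsto (fun k => w k (j k)) U (𝓝 b)) :
    dist a b ≤ dist p q := by
  have h5 := h3.dist h4
  have h6 := (h1.dist h2).add (eps_lim U hU)
  rw [add_zero] at h6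
  exact le_of_tendsto_of_tendsto' h5 h6 (fun k => (h k).lip (i k) (hi k) (j k) (hj k))

theorem bdT (U : Ultrafilter ℕ) (hU : (U : Filter ℕ) ≤ atTop)
    (h : ∀ k : ℕ, Apx H C ℓ (1 / ((k : ℝ) + 1)) (n k) (z k) (w k)) :
    TT U n z ⊆ closedBall (0 : E2) (ℓ / 4) := by
  rintro p ⟨i, hi, hp⟩
  have h1 := hp.dist (tendsto_const_nhds (x := (0 : E2)))
  have h2 := (tendsto_const_nhds (x := ℓ / 4)).add (eps_lim U hU)
  rw [add_zero] at h2
  rw [mem_closedBall]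
  refine le_of_tendsto_of_tendsto' h1 h2 (fun k => ?_)
  exact mem_closedBall.1 ((h k).bd (i k) (hi k))

theorem cptT (U : Ultrafilter ℕ) (hU : (U : Filter ℕ) ≤ atTop)
    (h : ∀ k : ℕ, Apx H C ℓ (1 / ((k : ℝ) + 1)) (n k) (z k) (w k)) : IsCompact (TT U n z) :=
  (isCompact_closedBall (0 : E2) (ℓ / 4)).of_isClosed_subset
    (closed_TT U n z (fun k => (h k).pos)) (bdT U hU h)

theorem neT (U : Ultrafilter ℕ) (h : ∀ k : ℕ, Apx H C ℓ (1 / ((k : ℝ) + 1)) (n k) (z k) (w k)) :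
    (TT U n z).Nonempty := by
  obtain ⟨p, hp, -⟩ := ilim U h (fun _ => 0) (fun k => (h k).pos)
  exact ⟨p, hp⟩

theorem perT (U : Ultrafilter ℕ) (hU : (U : Filter ℕ) ≤ atTop)
    (h : ∀ k : ℕ, Apx H C ℓ (1 / ((k : ℝ) + 1)) (n k) (z k) (w k)) :
    W (convexHull ℝ (TT U n z)) ≤ ℓ := by
  have hT := cptT U hU h
  have hne := neT U h
  have hW : W (convexHull ℝ (TT U n z)) = ∫ θ in (0 : ℝ)..(2 * Real.pi), hs (TT U n z) θ := by
    unfold W
    congr 1
    funext θ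
    exact hs_hull hT hne θ
  rw [hW]
  have hpi := Real.pi_pos
  apply le_of_forall_pos_le_add
  intro η hη
  set δ := η / (2 * Real.pi) with hδ
  have hδ0 : 0 < δ := by positivity
  obtain ⟨t, htT, htf, htc⟩ := hT.elim_finite_subcover_image (b := TT U n z)
    (c := fun p => ball p (δ / 2)) (fun p _ => isOpen_ball)
    (fun p hp => mem_biUnion hp (mem_ball_self (by positivity)))
  have hev : ∀ᶠ k in (U : Filter ℕ), ∀ p ∈ t, ∃ i < n k, dist (z k i) p < δ / 2 := by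
    rw [Filter.eventually_all_finite htf]
    intro p hp
    obtain ⟨i, hi, hi2⟩ := htT hp
    filter_upwards [(Metric.tendsto_nhds.1 hi2) (δ / 2) (by positivity)] with k hk
    exact ⟨i k, hi k, hk⟩
  obtain ⟨k, hk⟩ := hev.exists
  have hle : ∀ θ, hs (TT U n z) θ ≤ hs (z k '' Iio (n k)) θ + δ := by
    intro θ
    apply hs_le hne
    intro q hq
    obtain ⟨p, hp, hqp⟩ := mem_iUnion₂.1 (htc hq)
    obtain ⟨i, hi, hi2⟩ := hk p hp
    have h1 := ip_dist q (z k i) θ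
    have h2 := dist_triangle q p (z k i)
    rw [dist_comm p] at h2
    have h3 := mem_ball.1 hqp
    have h4 := le_hs (cptZ (n k) (z k)) (mem_image_of_mem _ (mem_Iio.2 hi)) θ
    have h5 := (abs_le.1 h1).2
    linarith
  calc ∫ θ in (0 : ℝ)..(2 * Real.pi), hs (TT U n z) θ
      ≤ ∫ θ in (0 : ℝ)..(2 * Real.pi), (hs (z k '' Iio (n k)) θ + δ) := by
        apply intervalIntegral.integral_mono_on (by positivity)
          ((cont_hs hT).intervalIntegrable _ _)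
          (((cont_hs (cptZ (n k) (z k))).add continuous_const).intervalIntegrable _ _)
        intro θ _
        exact hle θ
    _ = W (z k '' Iio (n k)) + η := by
        rw [intervalIntegral.integral_add ((cont_hs (cptZ (n k) (z k))).intervalIntegrable _ _)
          (continuous_const.intervalIntegrable _ _), intervalIntegral.integral_const, W, hδ]
        simp only [smul_eq_mul, sub_zero]
        congr 1
        field_simp
    _ ≤ ℓ + η := by
        have := (h k).per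
        linarith

theorem frT (U : Ultrafilter ℕ) (hU : (U : Filter ℕ) ≤ atTop)
    (h : ∀ k : ℕ, Apx H C ℓ (1 / ((k : ℝ) + 1)) (n k) (z k) (w k)) :
    frontier (convexHull ℝ (TT U n z)) ⊆ TT U n z := by
  intro p hp
  have hT := cptT U hU h
  have hne := neT U h
  obtain ⟨hpK, θ, hθ⟩ := supp hT hne hp
  set φ := θ + Real.pi / 2 with hφ
  obtain ⟨a, haT, b, hbT, ha, hb, hap, hpb⟩ := face hT hne hpK hθ φ
  obtain ⟨i, hi, hia⟩ := haT
  obtain ⟨j, hj, hjb⟩ := hbT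
  have hm : ∀ k, ∃ m < n k, min (ip (z k (i k)) θ) (ip (z k (j k)) θ) - 1 / ((k : ℝ) + 1) ≤ ip (z k m) θ ∧
      |ip (z k m) φ - ip p φ| ≤ (dist (z k (i k)) a + dist (z k (j k)) b) + 1 / ((k : ℝ) + 1) := by
    intro k
    have hε : 0 < 1 / ((k : ℝ) + 1) := by positivity
    refine arc' (h k).noalt (eps_nn k) (h k).edge (h k).edge0 θ (hi k) (hj k) ?_ ?_ φ (ip p φ)
      (dist (z k (i k)) a + dist (z k (j k)) b) (by positivity) ?_ ?_
    · have := min_le_left (ip (z k (i k)) θ) (ip (z k (j k)) θ)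
      linarith
    · have := min_le_right (ip (z k (i k)) θ) (ip (z k (j k)) θ)
      linarith
    · have h1 := (abs_le.1 (ip_dist (z k (i k)) a φ)).2
      have h2 : 0 ≤ dist (z k (j k)) b := dist_nonneg
      linarith
    · have h1 := (abs_le.1 (ip_dist (z k (j k)) b φ)).1
      have h2 : 0 ≤ dist (z k (i k)) a := dist_nonneg
      linarith
  choose m hm1 hm2 hm3 using hm
  obtain ⟨q, hqT, hq⟩ := ilim U h m hm1
  have hzero := eps_lim U hU
  -- the component in the direction `θ`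
  have e1 : hs (TT U n z) θ ≤ ip q θ := by
    have h1 : Tendsto (fun k => min (ip (z k (i k)) θ) (ip (z k (j k)) θ) - 1 / ((k : ℝ) + 1)) U
        (𝓝 (min (ip a θ) (ip b θ) - 0)) :=
      ((((cont_in θ).tendsto a).comp hia).min (((cont_in θ).tendsto b).comp hjb)).sub hzero
    rw [ha, hb, min_self, sub_zero] at h1
    exact le_of_tendsto_of_tendsto' h1 (((cont_in θ).tendsto q).comp hq) hm2
  have e2 : ip q θ ≤ hs (TT U n z) θ := le_hs hT hqT θ
  -- the other component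
  have e3 : |ip q φ - ip p φ| ≤ 0 := by
    have h1 : Tendsto (fun k => (dist (z k (i k)) a + dist (z k (j k)) b) + 1 / ((k : ℝ) + 1)) U
        (𝓝 ((dist a a + dist b b) + 0)) :=
      ((hia.dist tendsto_const_nhds).add (hjb.dist tendsto_const_nhds)).add hzero
    rw [dist_self, dist_self, add_zero, add_zero] at h1
    have h2 : Tendsto (fun k => |ip (z k (m k)) φ - ip p φ|) U (𝓝 |ip q φ - ip p φ|) :=
      ((((cont_in φ).tendsto q).comp hq).sub tendsto_const_nhds).abs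
    exact le_of_tendsto_of_tendsto' h2 h1 hm3
  have e4 : q = p := by
    have h1 := norm_le_ip (q - p) θ
    rw [← hφ, ip_sub, ip_sub] at h1
    have h2 : ip q θ - ip p θ = 0 := by linarith
    rw [h2, abs_zero, zero_add] at h1
    have h3 : ‖q - p‖ = 0 := le_antisymm (h1.trans e3) (norm_nonneg _)
    exact sub_eq_zero.1 (norm_eq_zero.1 h3)
  rw [← e4]
  exact hqT

theorem limT (U : Ultrafilter ℕ) (hU : (U : Filter ℕ) ≤ atTop) (hC : IsCompact C)
    (h : ∀ k : ℕ, Apx H C ℓ (1 / ((k : ℝ) + 1)) (n k) (z k) (w k)) :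
    ∃ c : E2 → H, Lim H C ℓ (TT U n z) c := by
  classical
  have hc : ∀ p : E2, ∃ a : H, p ∈ TT U n z → a ∈ C ∧
      ∃ i : ℕ → ℕ, (∀ k, i k < n k) ∧ Tendsto (fun k => z k (i k)) U (𝓝 p) ∧
        Tendsto (fun k => w k (i k)) U (𝓝 a) := by
    intro p
    by_cases hp : p ∈ TT U n z
    · obtain ⟨i, hi, hi2⟩ := hp
      obtain ⟨a, ha, ha2⟩ := wlim U hC h i hi
      exact ⟨a, fun _ => ⟨ha, i, hi, hi2, ha2⟩⟩
    · exact ⟨0, fun h => absurd h hp⟩
  choose c hc using hc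
  refine ⟨c, cptT U hU h, neT U h, frT U hU h, ?_, ?_, fun p hp => (hc p hp).1, bdT U hU h,
    perT U hU h⟩
  · intro p hp q hq
    obtain ⟨-, i, hi, hi1, hi2⟩ := hc p hp
    obtain ⟨-, j, hj, hj1, hj2⟩ := hc q hq
    exact lipseq U hU h i j hi hj p q _ _ hi1 hj1 hi2 hj2
  · intro p hp
    obtain ⟨-, i, hi, hi1, hi2⟩ := hc p hp
    have h1 : ∀ k, ∃ j < n k, 1 - 1 / ((k : ℝ) + 1) ≤ dist (w k (i k)) (w k j) := fun k =>
      (h k).far (i k) (hi k)
    choose j hj hj2 using h1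
    obtain ⟨q, hqT, hq⟩ := ilim U h j hj
    obtain ⟨b, -, hb⟩ := wlim U hC h j hj
    obtain ⟨-, j', hj', hj1', hj2'⟩ := hc q hqT
    have h2 := lipseq U hU h j' j hj' hj q q _ _ hj1' hq hj2' hb
    rw [dist_self] at h2
    have h3 : c q = b := dist_le_zero.1 h2
    refine ⟨q, hqT, ?_⟩
    rw [h3]
    have h4 := (tendsto_const_nhds (x := (1 : ℝ))).sub (eps_lim U hU)
    rw [sub_zero] at h4
    exact le_of_tendsto_of_tendsto' h4 (hi2.dist hb) hj2

theorem limT2 (U : Ultrafilter ℕ) (hU : (U : Filter ℕ) ≤ atTop) (hC : IsCompact C)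
    (h : ∀ k : ℕ, Apx H C ℓ (1 / ((k : ℝ) + 1)) (n k) (z k) (w k))
    (hd : ∀ k : ℕ, ∀ v ∈ C, ∃ i < n k, dist v (w k i) ≤ 1 / ((k : ℝ) + 1)) :
    ∃ c : E2 → H, Lim H C ℓ (TT U n z) c ∧
      ∀ v ∈ C, ∃ p ∈ TT U n z, c p = v := by
  classical
  have hc : ∀ p : E2, ∃ a : H, p ∈ TT U n z → a ∈ C ∧
      ∃ i : ℕ → ℕ, (∀ k, i k < n k) ∧ Tendsto (fun k => z k (i k)) U (𝓝 p) ∧
        Tendsto (fun k => w k (i k)) U (𝓝 a) := by
    intro p
    by_cases hp : p ∈ TT U n z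
    · obtain ⟨i, hi, hi2⟩ := hp
      obtain ⟨a, ha, ha2⟩ := wlim U hC h i hi
      exact ⟨a, fun _ => ⟨ha, i, hi, hi2, ha2⟩⟩
    · exact ⟨0, fun h => absurd h hp⟩
  choose c hc using hc
  refine ⟨c, ⟨cptT U hU h, neT U h, frT U hU h, ?_, ?_, fun p hp => (hc p hp).1, bdT U hU h,
    perT U hU h⟩, ?_⟩
  · intro p hp q hq
    obtain ⟨-, i, hi, hi1, hi2⟩ := hc p hp
    obtain ⟨-, j, hj, hj1, hj2⟩ := hc q hq
    exact lipseq U hU h i j hi hj p q _ _ hi1 hj1 hi2 hj2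
  · intro p hp
    obtain ⟨-, i, hi, hi1, hi2⟩ := hc p hp
    have h1 : ∀ k, ∃ j < n k, 1 - 1 / ((k : ℝ) + 1) ≤ dist (w k (i k)) (w k j) := fun k =>
      (h k).far (i k) (hi k)
    choose j hj hj2 using h1
    obtain ⟨q, hqT, hq⟩ := ilim U h j hj
    obtain ⟨b, -, hb⟩ := wlim U hC h j hj
    obtain ⟨-, j', hj', hj1', hj2'⟩ := hc q hqT
    have h2 := lipseq U hU h j' j hj' hj q q _ _ hj1' hq hj2' hb
    rw [dist_self] at h2
    have h3 : c q = b := dist_le_zero.1 h2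
    refine ⟨q, hqT, ?_⟩
    rw [h3]
    have h4 := (tendsto_const_nhds (x := (1 : ℝ))).sub (eps_lim U hU)
    rw [sub_zero] at h4
    exact le_of_tendsto_of_tendsto' h4 (hi2.dist hb) hj2
  · intro v hv
    have h1 : ∀ k, ∃ i < n k, dist v (w k i) ≤ 1 / ((k : ℝ) + 1) := fun k => hd k v hv
    choose j hj hj2 using h1
    obtain ⟨q, hqT, hq⟩ := ilim U h j hj
    have hb : Tendsto (fun k => w k (j k)) U (𝓝 v) := by
      rw [tendsto_iff_dist_tendsto_zero]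
      refine squeeze_zero (fun _ => dist_nonneg) (fun k => ?_) (eps_lim U hU)
      rw [dist_comm]
      exact hj2 k
    obtain ⟨-, j', hj', hj1', hj2'⟩ := hc q hqT
    have h2 := lipseq U hU h j' j hj' hj q q _ _ hj1' hq hj2' hb
    rw [dist_self] at h2
    exact ⟨q, hqT, dist_le_zero.1 h2⟩

end

end Lm

/-- FP-LIM -/
theorem lim : LimStm := by
  intro H _ _ C ℓ _ hC h
  have h1 : ∀ k : ℕ, ∃ (n : ℕ) (z : ℕ → E2) (w : ℕ → H),
      Apx H C ℓ (1 / ((k : ℝ) + 1)) n z w := fun k => h _ (by positivity)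
  choose n z w hnzw using h1
  obtain ⟨c, hc⟩ := Lm.limT (hyperfilter ℕ) Nat.hyperfilter_le_atTop hC hnzw
  exact ⟨_, c, hc⟩

/-- FP2-LIM -/
theorem lim2 : Lim2Stm := by
  intro H _ _ C ℓ _ hC h
  have h1 : ∀ k : ℕ, ∃ (n : ℕ) (z : ℕ → E2) (w : ℕ → H),
      Apx H C ℓ (1 / ((k : ℝ) + 1)) n z w ∧ ∀ v ∈ C, ∃ i < n, dist v (w i) ≤ 1 / ((k : ℝ) + 1) :=
    fun k => h _ (by positivity)
  choose n z w hnzw hd using h1
  obtain ⟨c, hc⟩ := Lm.limT2 (hyperfilter ℕ) Nat.hyperfilter_le_atTop hC hnzw hd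
  exact ⟨_, c, hc⟩

end Pool.Agent.KS676.FPH
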