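import Pool.Graph.R_seed8.Y508.FP.Iff
import Pool.Graph.R_seed8.Y508.FP.Quant
import Pool.Agent.KS6_76.FPH.Stm

/-!
# Assembly of the two main theorems, in an inner product space
-/

set_option autoImplicit false
open MeasureTheory Metric Set Filter Topology
open Real (sin cos)

universe u

namespace Pool.Agent.KS676.FPH
open Pool.Agent.Y508 Pool.Agent.Y508.FP

open Pool.Agent.Y508.FP.IffAux

theorem ifs : IfStm := by
  rintro H _ _ C ⟨ι, K, hK, hc, hw, rfl⟩ _ ⟨x, hx, rfl⟩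
  obtain ⟨hxK, θ, hθ⟩ := supp hK hc hx
  have h1 := hw (ev θ) (norm_ev θ)
  have h1' := width hK ⟨x, hxK⟩ θ
  obtain ⟨y, hy, hye⟩ := exists_hs hK ⟨x, hxK⟩ (θ + Real.pi)
  refine ⟨ι y, mem_image_of_mem _ (fron hK hy hye.symm), ?_⟩
  rw [ι.dist_map, dist_eq_norm]
  have h2 := abs_ip_le (x - y) θ
  have h3 := le_abs_self (ip (x - y) θ)
  have h4 := ip_sub x y θ
  have h5 : hs K θ + hs K (θ + Real.pi) = 1 := by rw [← h1']; exact h1
  rw [hye, ip_add_pi] at h5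
  linarith

theorem cwb_diam : ∀ (H : Type u) [NormedAddCommGroup H] [InnerProductSpace ℝ H] (C : Set H), CWB H C →
    ∀ x ∈ C, ∀ y ∈ C, dist x y ≤ 1 := by
  rintro H _ _ C ⟨ι, K, hK, hc, hw, rfl⟩ _ ⟨x, hx, rfl⟩ _ ⟨y, hy, rfl⟩
  rw [ι.dist_map, dist_eq_norm]
  obtain ⟨hxK, -⟩ := supp hK hc hx
  obtain ⟨hyK, -⟩ := supp hK hc hy
  by_cases hxy : x - y = 0
  · rw [hxy, norm_zero]
    exact zero_le_one
  obtain ⟨θ, hθ⟩ := exists_pos_ev (x - y) hxy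
  have h1 := hw (ev θ) (norm_ev θ)
  have h1' := width hK ⟨x, hxK⟩ θ
  have h5 : hs K θ + hs K (θ + Real.pi) = 1 := by rw [← h1']; exact h1
  have h2 := le_hs hK hxK θ
  have h3 := le_hs hK hyK (θ + Real.pi)
  rw [ip_add_pi] at h3
  have h4 : ip (x - y) θ = ‖x - y‖ := by
    conv_lhs => rw [hθ]
    rw [ip_smul, ip_ev, sub_self, Real.cos_zero, mul_one]
  rw [ip_sub] at h4
  linarith

theorem mainAux (hApx : ApxStm.{u}) (hLim : LimStm.{u}) (hPl : PlaneStm) (hRig : RigStm.{u}) (hFin : FinStm.{u})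
    (hIf : IfStm.{u})
    (hDiam : ∀ (H : Type u) [NormedAddCommGroup H] [InnerProductSpace ℝ H] (C : Set H), CWB H C →
      ∀ x ∈ C, ∀ y ∈ C, dist x y ≤ 1)
    (hHull : ∀ T : Set E2, IsCompact T → IsCompact (convexHull ℝ T)) : MainStm.{u} := by
  intro H _ _ γ hc h01 hlen
  have hpi := Real.pi_pos
  have hCc : IsCompact (γ '' Icc 0 1) := isCompact_Icc.image_of_continuousOn hc
  have core : (∀ x ∈ γ '' Icc 0 1, ∃ y ∈ γ '' Icc 0 1, 1 ≤ dist x y) →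
      CWB H (γ '' Icc 0 1) := by
    intro HH
    have Hγ : ∀ s ∈ Icc (0 : ℝ) 1, ∃ t ∈ Icc (0 : ℝ) 1, 1 ≤ dist (γ s) (γ t) := by
      intro s hs
      obtain ⟨_, ⟨t, ht, rfl⟩, h1⟩ := HH _ ⟨s, hs, rfl⟩
      exact ⟨t, ht, h1⟩
    obtain ⟨T, c, hT⟩ := hLim H (γ '' Icc 0 1) Real.pi hpi.le hCc
      (hApx H γ Real.pi hpi.le hc h01 hlen.le Hγ)
    obtain ⟨h1, h2⟩ := hPl (convexHull ℝ T) (hHull T hT.cpt) (convex_convexHull ℝ T)
      hT.ne.convexHull ⟨0, Real.pi / 4, by linarith [Real.pi_lt_four],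
        convexHull_min hT.bd (convex_closedBall _ _)⟩ (by
        intro x hx
        obtain ⟨q, hq, h3⟩ := hT.far x (hT.fr hx)
        exact ⟨q, subset_convexHull ℝ T hq, h3.trans (hT.lip x (hT.fr hx) q hq)⟩)
    have hW : W (convexHull ℝ T) = Real.pi := le_antisymm hT.per h1
    obtain ⟨e1, e2, hD⟩ := hRig H (γ '' Icc 0 1) Real.pi T c hT (h2 hW)
    exact hFin H γ e1 e2 hc h01 hlen hD
  refine ⟨?_, core, hIf H _⟩
  by_contra hcon
  push Not at hcon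
  have h1 := hDiam H _ (core fun x hx => by
    obtain ⟨y, hy, h2⟩ := hcon x hx
    exact ⟨y, hy, h2.le⟩)
  have h0 : γ 0 ∈ γ '' Icc 0 1 := ⟨0, by simp, rfl⟩
  obtain ⟨y, hy, h2⟩ := hcon _ h0
  exact absurd (h1 _ h0 y hy) (not_le.2 h2)

theorem quant (hA : Apx2Stm.{u}) (hL : Lim2Stm.{u})
    (hP : ∀ K : Set E2, IsCompact K → Convex ℝ K → K.Nonempty →
      (∃ (m : E2) (r : ℝ), r < 1 ∧ K ⊆ closedBall m r) →
      (∀ x ∈ frontier K, ∃ y ∈ K, 1 ≤ dist x y) →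
      ∀ θ, |hs K θ + hs K (θ + Real.pi) - 1| ^ 5 ≤ 320 * (W K - Real.pi))
    (H : Type u) [NormedAddCommGroup H] [InnerProductSpace ℝ H] (γ : ℝ → H) (hc : ContinuousOn γ (Icc 0 1)) (h01 : γ 0 = γ 1)
    (hlen : eVariationOn γ (Icc 0 1) = ENNReal.ofReal Real.pi) (m : ℝ) (hm0 : 0 ≤ m) (hm1 : m ≤ 1)
    (hm : ∀ x ∈ γ '' Icc 0 1, ∃ y ∈ γ '' Icc 0 1, m ≤ dist x y) :
    ∀ x ∈ γ '' Icc 0 1, ∀ y ∈ γ '' Icc 0 1, m ≤ dist x y → m + ((dist x y - m) / 4) ^ 5 ≤ 1 := by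
  rintro _ ⟨s, hs', rfl⟩ _ ⟨t, ht', rfl⟩ hxy
  have hpi := Real.pi_pos
  have hpi2 := Real.pi_lt_d2
  have hdi := two_dist_le hpi.le h01 hlen.le s hs' t ht'
  rcases le_or_gt m (Real.pi / 4) with h4 | h4
  · have e1 : (dist (γ s) (γ t) - m) / 4 ≤ 2 / 5 := by linarith
    have e2 : ((dist (γ s) (γ t) - m) / 4) ^ 5 ≤ (2 / 5) ^ 5 :=
      pow_le_pow_left₀ (by linarith) e1 5
    have e3 : ((2 : ℝ) / 5) ^ 5 ≤ 1 / 90 := by norm_num
    linarith
  have hmp : 0 < m := by linarith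
  obtain ⟨γ', hγ'⟩ : ∃ γ' : ℝ → H, γ' = fun t => m⁻¹ • γ t := ⟨_, rfl⟩
  have hdist : ∀ a b, dist (γ' a) (γ' b) = dist (γ a) (γ b) / m := by
    intro a b
    rw [hγ', dist_smul₀, Real.norm_eq_abs, abs_of_pos (inv_pos.2 hmp)]
    field_simp
  have hlip : LipschitzWith (Real.toNNReal m⁻¹)
      (fun v : H => m⁻¹ • v) := by
    apply LipschitzWith.of_dist_le_mul
    intro a b
    rw [dist_smul₀, Real.norm_eq_abs, abs_of_pos (inv_pos.2 hmp), Real.coe_toNNReal _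
      (inv_pos.2 hmp).le]
  have hlen2 : eVariationOn γ' (Icc 0 1) ≤ ENNReal.ofReal (Real.pi / m) := by
    have e1 := (hlip.lipschitzOnWith (s := univ)).comp_eVariationOn_le (f := fun v => m⁻¹ • v)
      (g := γ) (s := Icc 0 1) (mapsTo_univ _ _)
    have e2 : ((fun v : H => m⁻¹ • v) ∘ γ) = γ' := by
      rw [hγ']
      rfl
    rw [e2] at e1
    refine e1.trans (le_of_eq ?_)
    rw [hlen, div_eq_inv_mul, ENNReal.ofReal_mul (inv_pos.2 hmp).le]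
    rfl
  have hc' : ContinuousOn γ' (Icc 0 1) := by
    rw [hγ']
    exact hc.const_smul (m⁻¹ : ℝ)
  have h01' : γ' 0 = γ' 1 := by
    rw [hγ']
    simp only [h01]
  have hfar : ∀ s ∈ Icc (0 : ℝ) 1, ∃ t ∈ Icc (0 : ℝ) 1, 1 ≤ dist (γ' s) (γ' t) := by
    intro a ha
    obtain ⟨_, ⟨b, hb, rfl⟩, h⟩ := hm _ ⟨a, ha, rfl⟩
    refine ⟨b, hb, ?_⟩
    rw [hdist, le_div_iff₀ hmp, one_mul]
    exact h
  have hCc : IsCompact (γ' '' Icc 0 1) := isCompact_Icc.image_of_continuousOn hc'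
  obtain ⟨T, c, hT, hsur⟩ := hL H (γ' '' Icc 0 1) (Real.pi / m) (by positivity) hCc
    (hA H γ' (Real.pi / m) (by positivity) hc' h01' hlen2 hfar)
  have hK : IsCompact (convexHull ℝ T) := Fn.compact_hull hT.cpt
  have h1 := hP (convexHull ℝ T) hK (convex_convexHull ℝ T) hT.ne.convexHull
    ⟨0, Real.pi / m / 4, by
      rw [div_div, div_lt_one (by positivity)]
      linarith, convexHull_min hT.bd (convex_closedBall _ _)⟩ (by
        intro x hx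
        obtain ⟨q, hq, h3⟩ := hT.far x (hT.fr hx)
        exact ⟨q, subset_convexHull ℝ T hq, h3.trans (hT.lip x (hT.fr hx) q hq)⟩)
  obtain ⟨p, hp, hps⟩ := hsur (γ' s) ⟨s, hs', rfl⟩
  obtain ⟨q, hq, hqt⟩ := hsur (γ' t) ⟨t, ht', rfl⟩
  have h2 : dist (γ s) (γ t) / m ≤ dist p q := by
    rw [← hdist, ← hps, ← hqt]
    exact hT.lip p hp q hq
  obtain ⟨θ, hθ⟩ : ∃ θ : ℝ, p - q = ‖p - q‖ • ev θ := by
    by_cases h0 : p - q = 0
    · exact ⟨0, by rw [h0, norm_zero, zero_smul]⟩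
    · exact exists_pos_ev (p - q) h0
  have h3 : ip (p - q) θ = dist p q := by
    rw [hθ, ip_smul, ip_ev, sub_self, Real.cos_zero, mul_one, dist_eq_norm]
  have h5 := le_hs hK (subset_convexHull ℝ T hp) θ
  have h6 := le_hs hK (subset_convexHull ℝ T hq) (θ + Real.pi)
  rw [ip_add_pi] at h6
  rw [ip_sub] at h3
  have h7 : dist (γ s) (γ t) / m - 1 ≤
      |hs (convexHull ℝ T) θ + hs (convexHull ℝ T) (θ + Real.pi) - 1| := by
    refine le_trans ?_ (le_abs_self _)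
    linarith
  have h8 : 0 ≤ dist (γ s) (γ t) / m - 1 := by
    have : 1 ≤ dist (γ s) (γ t) / m := by
      rw [le_div_iff₀ hmp, one_mul]
      exact hxy
    linarith
  have h9 := (pow_le_pow_left₀ h8 h7 5).trans (h1 θ)
  have h10 : (dist (γ s) (γ t) / m - 1) ^ 5 ≤ 320 * (Real.pi / m - Real.pi) := by
    have := hT.per
    linarith
  have h11 : (dist (γ s) (γ t) / m - 1) = (dist (γ s) (γ t) - m) / m := by
    field_simp
  rw [h11, div_pow, div_le_iff₀ (by positivity)] at h10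
  have h12 : 320 * (Real.pi / m - Real.pi) * m ^ 5 = 320 * Real.pi * (m ^ 4 * (1 - m)) := by
    field_simp
  rw [h12] at h10
  have h13 : m ^ 4 * (1 - m) ≤ 1 - m := by
    have : m ^ 4 ≤ 1 := pow_le_one₀ hm0 hm1
    nlinarith
  have h14 : 320 * Real.pi * (m ^ 4 * (1 - m)) ≤ 1024 * (1 - m) := by
    have h15 : 0 ≤ m ^ 4 * (1 - m) := mul_nonneg (by positivity) (by linarith)
    nlinarith
  have h16 : ((dist (γ s) (γ t) - m) / 4) ^ 5 = (dist (γ s) (γ t) - m) ^ 5 / 1024 := by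
    ring
  rw [h16]
  have h17 := h10.trans h14
  linarith

end Pool.Agent.KS676.FPH
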