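import Pool.Graph.R_seed8.Y508.FP.Geo
import Pool.Graph.R_seed8.Y508.FP.Rig
import Pool.Agent.KS6_76.FPH.Stm

/-!
# The case of constant width, in an inner product space
-/

set_option autoImplicit false
open MeasureTheory Metric Set Filter Topology
open Real (sin cos)

universe u

namespace Pool.Agent.KS676.FPH
open Pool.Agent.Y508 Pool.Agent.Y508.FP

theorem geo : GeoStm := by
  intro H _ _ f h1 h2 h3
  have hne : ∀ θ, f θ ≠ 0 := by
    intro θ h0
    have := h1 θ
    rw [h0, norm_zero] at this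
    exact zero_ne_one this
  have hin : ∀ a b, inner ℝ (f a) (f b) = cos (InnerProductGeometry.angle (f a) (f b)) := by
    intro a b
    have := InnerProductGeometry.cos_angle_mul_norm_mul_norm (f a) (f b)
    rw [h1, h1, mul_one, mul_one] at this
    exact this.symm
  have hpi : InnerProductGeometry.angle (f 0) (f Real.pi) = Real.pi := by
    rw [h3]
    exact InnerProductGeometry.angle_self_neg_of_nonzero (hne 0)
  have hpp := Real.pi_pos
  have a0 : ∀ θ, 0 ≤ θ → θ ≤ Real.pi → InnerProductGeometry.angle (f 0) (f θ) = θ := by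
    intro θ h4 h5
    have h6 := Geo.angle_le_sub h1 h2 h4
    have h7 := Geo.angle_le_sub h1 h2 h5
    have h8 := InnerProductGeometry.angle_le_angle_add_angle (f 0) (f θ) (f Real.pi)
    rw [hpi] at h8
    linarith
  have a1 : ∀ θ, 0 ≤ θ → θ ≤ Real.pi → inner ℝ (f (Real.pi / 2)) (f θ) = sin θ := by
    intro θ h4 h5
    rcases le_total θ (Real.pi / 2) with h6 | h6
    · have h7 := Geo.angle_le_sub h1 h2 h6
      have h8 := InnerProductGeometry.angle_le_angle_add_angle (f 0) (f θ) (f (Real.pi / 2))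
      rw [a0 _ h4 h5, a0 _ (by linarith) (by linarith)] at h8
      have h9 : InnerProductGeometry.angle (f θ) (f (Real.pi / 2)) = Real.pi / 2 - θ := by
        linarith
      rw [real_inner_comm, hin, h9, Real.cos_pi_div_two_sub]
    · have h7 := Geo.angle_le_sub h1 h2 h6
      have h8 := InnerProductGeometry.angle_le_angle_add_angle (f 0) (f (Real.pi / 2)) (f θ)
      rw [a0 _ h4 h5, a0 _ (by linarith) (by linarith)] at h8
      have h9 : InnerProductGeometry.angle (f (Real.pi / 2)) (f θ) = θ - Real.pi / 2 := by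
        linarith
      rw [hin, h9, ← neg_sub, Real.cos_neg, Real.cos_pi_div_two_sub]
  have a2 : ∀ θ, 0 ≤ θ → θ ≤ Real.pi → inner ℝ (f 0) (f θ) = cos θ := by
    intro θ h4 h5
    rw [hin, a0 θ h4 h5]
  have h0 : inner ℝ (f 0) (f (Real.pi / 2)) = 0 := by
    rw [a2 _ (by linarith) (by linarith), Real.cos_pi_div_two]
  refine ⟨h0, ?_⟩
  rintro θ ⟨h4, h5⟩
  have h6 : ‖f θ - (cos θ • f 0 + sin θ • f (Real.pi / 2))‖ ^ 2 = 0 := by
    rw [norm_sub_sq_real, norm_add_sq_real, norm_smul, norm_smul, h1, h1, h1, inner_add_right,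
      real_inner_smul_right, real_inner_smul_right, real_inner_smul_left, real_inner_smul_right,
      h0, real_inner_comm (f 0) (f θ), real_inner_comm (f (Real.pi / 2)) (f θ), a2 θ h4 h5,
      a1 θ h4 h5, Real.norm_eq_abs, Real.norm_eq_abs, mul_one, mul_one, sq_abs, sq_abs]
    have := Real.sin_sq_add_cos_sq θ
    linarith
  exact sub_eq_zero.1 (norm_eq_zero.1 (pow_eq_zero_iff (two_ne_zero)|>.1 h6))

open Pool.Agent.Y508.FP.Rig

theorem rig (hGeo : GeoStm.{u}) : RigStm.{u} := by
  intro H _ _ C ℓ T c hT hw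
  obtain ⟨K, hKd⟩ : ∃ K, K = convexHull ℝ T := ⟨_, rfl⟩
  rw [← hKd] at hw
  have hTK : T ⊆ K := by rw [hKd]; exact subset_convexHull ℝ T
  have hne : K.Nonempty := hT.ne.mono hTK
  have hfr : frontier K ⊆ T := by rw [hKd]; exact hT.fr
  have hK : IsCompact K := by
    refine Metric.isCompact_of_isClosed_isBounded ?_ ?_
    · rw [← closure_subset_iff_isClosed, closure_eq_interior_union_frontier]
      exact union_subset interior_subset (hfr.trans hTK)
    · rw [hKd, isBounded_convexHull]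
      exact hT.cpt.isBounded
  have hex : ∀ θ, ∃ y, Sp K θ y := by
    intro θ
    obtain ⟨x, hx, hxe⟩ := exists_hs hK hne θ
    exact ⟨x, hx, hxe.symm⟩
  choose Y hY using hex
  have hYT : ∀ θ, Y θ ∈ T := by
    intro θ
    apply hfr
    rw [hK.isClosed.frontier_eq]
    refine ⟨(hY θ).1, fun hint => ?_⟩
    obtain ⟨r, hr, hb⟩ := Metric.isOpen_iff.1 isOpen_interior _ hint
    have h1 : Y θ + (r / 2) • ev θ ∈ K := by
      apply interior_subset
      apply hb
      rw [mem_ball, dist_eq_norm, add_sub_cancel_left, norm_smul, norm_ev, mul_one,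
        Real.norm_eq_abs, abs_of_pos (by positivity)]
      linarith
    have h2 := le_hs hK h1 θ
    rw [ip_add, ip_smul, ip_ev, sub_self, Real.cos_zero, (hY θ).2] at h2
    linarith
  have hdiff : ∀ θ, Y θ - Y (θ + Real.pi) = ev θ := fun θ => sp_diff hK hw (hY θ) (hY _)
  have hun : ∀ {θ : ℝ} {y : E2}, Sp K θ y → y = Y θ := fun h => uniq hK hw hY h
  have hper : ∀ θ, Y (θ + 2 * Real.pi) = Y θ := per hK hw hY
  obtain ⟨U, hU⟩ : ∃ U : ℝ → H, U = fun θ => c (Y θ) - c (Y (θ + Real.pi)) :=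
    ⟨_, rfl⟩
  have hUpi : ∀ θ, U (θ + Real.pi) = -U θ := by
    intro θ
    rw [hU]
    show c (Y (θ + Real.pi)) - c (Y (θ + Real.pi + Real.pi)) = -(c (Y θ) - c (Y (θ + Real.pi)))
    have e1 : θ + Real.pi + Real.pi = θ + 2 * Real.pi := by ring
    rw [e1, hper]
    abel
  have hU1 : ∀ θ, ‖U θ‖ ≤ 1 := by
    intro θ
    rw [hU]
    show ‖c (Y θ) - c (Y (θ + Real.pi))‖ ≤ 1
    rw [← dist_eq_norm]
    refine (hT.lip _ (hYT _) _ (hYT _)).trans ?_
    rw [dist_eq_norm, hdiff, norm_ev]
  have hUlip : ∀ a b : ℝ, dist (U a) (U b) ≤ |a - b| := by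
    apply subdiv
    intro a b hab hb
    have hcos : 0 ≤ cos ((b - a) / 2) := (Real.cos_pos_of_mem_Ioo
      ⟨by linarith [Real.pi_pos], by linarith⟩).le
    refine le_trans ?_ (est hK hw hY hab hb)
    apply mul_le_mul_of_nonneg_right _ hcos
    rw [hU]
    show ‖c (Y b) - c (Y (b + Real.pi)) - (c (Y a) - c (Y (a + Real.pi)))‖ ≤ _
    have e1 : c (Y b) - c (Y (b + Real.pi)) - (c (Y a) - c (Y (a + Real.pi))) =
        (c (Y b) - c (Y a)) + (c (Y (a + Real.pi)) - c (Y (b + Real.pi))) := by abel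
    rw [e1]
    refine (norm_add_le _ _).trans ?_
    have h1 := hT.lip _ (hYT b) _ (hYT a)
    have h2 := hT.lip _ (hYT (a + Real.pi)) _ (hYT (b + Real.pi))
    rw [dist_eq_norm, dist_eq_norm] at h1 h2
    exact add_le_add h1 h2
  have hUc : Continuous U := by
    have : LipschitzWith 1 U := LipschitzWith.of_dist_le_mul fun a b => by
      rw [NNReal.coe_one, one_mul, Real.dist_eq]
      exact hUlip a b
    exact this.continuous
  -- points of norm one
  have hfar : ∀ θ, ∃ φ, ‖U φ‖ = 1 ∧ Y φ = Y θ ∧ |φ - θ| < Real.pi := by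
    intro θ
    obtain ⟨q, hq, hq1⟩ := hT.far (Y θ) (hYT θ)
    have h1 : dist (c (Y θ)) (c q) ≤ dist (Y θ) q := hT.lip _ (hYT θ) _ hq
    obtain ⟨φ, -, h3, h4⟩ := unit_diff hK hw (hTK (hYT θ)) (hTK hq)
      (by rw [← dist_eq_norm]; linarith)
    obtain ⟨n, hn⟩ := red φ θ
    have hYn : ∀ (m : ℤ) (x : ℝ), Y (x + m * (2 * Real.pi)) = Y x := by
      intro m x
      have hP : Function.Periodic Y (2 * Real.pi) := hper
      exact hP.int_mul m x
    obtain ⟨φ', hφ'⟩ : ∃ φ', φ' = φ + n * (2 * Real.pi) := ⟨_, rfl⟩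
    have e1 : Y φ' = Y θ := by rw [hφ', hYn]; exact (hun h3).symm
    have e2 : Y (φ' + Real.pi) = q := by
      have : φ' + Real.pi = (φ + Real.pi) + n * (2 * Real.pi) := by rw [hφ']; ring
      rw [this, hYn]
      exact (hun h4).symm
    refine ⟨φ', ?_, e1, ?_⟩
    · refine le_antisymm (hU1 _) ?_
      rw [hU]
      show 1 ≤ ‖c (Y φ') - c (Y (φ' + Real.pi))‖
      rw [e1, e2, ← dist_eq_norm]
      exact hq1
    · rw [← hφ'] at hn
      refine lt_of_le_of_ne hn fun heq => ?_
      have hcase : φ' = θ + Real.pi ∨ θ = φ' + Real.pi := by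
        rcases abs_eq Real.pi_pos.le |>.1 heq with h | h
        · left; linarith
        · right; linarith
      rcases hcase with h | h
      · have h5 := hdiff θ
        rw [← h, e1, sub_self] at h5
        have := norm_ev θ
        rw [← h5, norm_zero] at this
        exact zero_ne_one this
      · have h5 := hdiff φ'
        rw [← h, e1, sub_self] at h5
        have := norm_ev φ'
        rw [← h5, norm_zero] at this
        exact zero_ne_one this
  have hconst : ∀ {a b : ℝ}, Y a = Y b → a ≤ b → b - a < Real.pi → ∀ x, a ≤ x → x ≤ b →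
      Y x = Y a := by
    intro a b h1 _ h3 x h4 h5
    have hb : Sp K b (Y a) := by rw [h1]; exact hY b
    exact (hun (sp_arc hK (hY a) hb h4 h5 h3)).symm
  have hone : ∀ θ, ‖U θ‖ = 1 := by
    intro t
    by_contra hne1
    have hopen : IsOpen {x : ℝ | ‖U x‖ ≠ 1} := (isClosed_eq hUc.norm continuous_const).isOpen_compl
    obtain ⟨e0, he0, hball⟩ := Metric.isOpen_iff.1 hopen t hne1
    obtain ⟨e, he, hee, hep⟩ : ∃ e : ℝ, 0 < e ∧ e ≤ e0 ∧ e ≤ 1 :=
      ⟨min e0 1, lt_min he0 one_pos, min_le_left _ _, min_le_right _ _⟩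
    have hnot : ∀ x, t - e < x → x < t + e → ‖U x‖ ≠ 1 := by
      intro x h1 h2
      apply hball
      rw [mem_ball, Real.dist_eq, abs_lt]
      constructor <;> linarith
    have hside : ∀ s : ℝ, (∀ x, t - e < x → x < t + e → ‖U (x + s)‖ ≠ 1) →
        ∀ ψ, t - e < ψ → ψ < t + e → (∀ x, ψ ≤ x → x < t + e → Y (x + s) = Y (ψ + s)) ∨
          (∀ x, t - e < x → x ≤ ψ → Y (x + s) = Y (ψ + s)) := by
      intro s hs1 ψ h1 h2
      obtain ⟨φ, hφ1, hφ2, hφ3⟩ := hfar (ψ + s)
      rw [abs_lt] at hφ3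
      rcases le_total (ψ + s) φ with h | h
      · left
        have h3 : t + e ≤ φ - s := by
          by_contra hcon
          push Not at hcon
          have := hs1 (φ - s) (by linarith) hcon
          rw [sub_add_cancel] at this
          exact this hφ1
        intro x hx1 hx2
        exact hconst hφ2.symm h (by linarith) (x + s) (by linarith) (by linarith)
      · right
        have h3 : φ - s ≤ t - e := by
          by_contra hcon
          push Not at hcon
          have := hs1 (φ - s) hcon (by linarith)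
          rw [sub_add_cancel] at this
          exact this hφ1
        intro x hx1 hx2
        rw [hconst hφ2 h (by linarith) (x + s) (by linarith) (by linarith), hφ2]
    have hs0 := hside 0 (fun x h1 h2 => by rw [add_zero]; exact hnot x h1 h2)
    have hspi := hside Real.pi (fun x h1 h2 => by rw [hUpi, norm_neg]; exact hnot x h1 h2)
    simp only [add_zero] at hs0
    obtain ⟨u, v, h1, h2, h3, h4, h5⟩ := sides (f := Y) (g := fun x => Y (x + Real.pi)) he hs0 hspi
    have h6 : ev u = ev v := by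
      rw [← hdiff u, ← hdiff v, h4]
      show Y v - Y (u + Real.pi) = Y v - Y (v + Real.pi)
      have h5' : Y (u + Real.pi) = Y (v + Real.pi) := h5
      rw [h5']
    have h7 : ip (ev u) v = ip (ev v) v := by rw [h6]
    rw [ip_ev, ip_ev, sub_self, Real.cos_zero] at h7
    have h8 : v - u < 2 * Real.pi := by
      have := Real.pi_gt_three
      linarith
    have h9 := (Real.cos_eq_one_iff_of_lt_of_lt (by linarith [Real.pi_pos]) h8).1 h7
    linarith
  obtain ⟨g1, g2⟩ := hGeo H U hone hUlip (by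
    have := hUpi 0
    rwa [zero_add] at this)
  refine ⟨U 0, U (Real.pi / 2), hone 0, hone _, g1, ?_⟩
  have hC : ∀ θ, c (Y θ) ∈ C := fun θ => hT.mem _ (hYT θ)
  intro θ
  obtain ⟨n, hn⟩ := red θ Real.pi
  have hp := Real.pi_pos
  rw [abs_le] at hn
  obtain ⟨θ', hθ'⟩ : ∃ θ', θ' = θ + n * (2 * Real.pi) := ⟨_, rfl⟩
  have ec : cos θ' = cos θ := by rw [hθ']; exact Real.cos_add_int_mul_two_pi θ n
  have es : sin θ' = sin θ := by rw [hθ']; exact Real.sin_add_int_mul_two_pi θ n
  rw [← hθ'] at hn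
  rw [← ec, ← es]
  rcases le_total θ' Real.pi with h | h
  · refine ⟨_, hC θ', _, hC (θ' + Real.pi), ?_⟩
    rw [← g2 θ' ⟨by linarith, h⟩, hU]
  · refine ⟨_, hC (θ' - Real.pi + Real.pi), _, hC (θ' - Real.pi), ?_⟩
    have h1 := g2 (θ' - Real.pi) ⟨by linarith, by linarith⟩
    rw [Real.cos_sub_pi, Real.sin_sub_pi, neg_smul, neg_smul] at h1
    have h2 : U (θ' - Real.pi) = c (Y (θ' - Real.pi)) - c (Y (θ' - Real.pi + Real.pi)) := by
      rw [hU]
    rw [h2] at h1
    have h3 : c (Y (θ' - Real.pi + Real.pi)) - c (Y (θ' - Real.pi)) =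
        -(c (Y (θ' - Real.pi)) - c (Y (θ' - Real.pi + Real.pi))) := by abel
    rw [h3, h1]
    abel

end Pool.Agent.KS676.FPH
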