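import Pool.Graph.R_seed8.Y508.FP.All
import Pool.Agent.KS6_76.FPH.Lm
import Pool.Agent.KS6_76.FPH.Rig
import Pool.Agent.KS6_76.FPH.Pyt
import Pool.Agent.KS6_76.FPH.Fn
import Pool.Agent.KS6_76.FPH.Main
import Pool.Agent.KS6_76.FPH.Ap2

/-!
# Farthest points on closed curves of length `π` in an inner product space: the two main theorems
-/

set_option autoImplicit false
open MeasureTheory Metric Set Filter Topology

universe u

namespace Pool.Agent.KS676.FPH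
open Pool.Agent.Y508 Pool.Agent.Y508.FP

theorem apx2' : Apx2Stm.{u} := apx2 (Pool.Agent.Y344.FP.maj alt) pln poly

theorem apx' : ApxStm.{u} := by
  intro H _ _ γ ℓ h0 h1 h2 h3 h4 ε hε
  obtain ⟨n, z, w, h5, -⟩ := apx2'.{u} H γ ℓ h0 h1 h2 h3 h4 ε hε
  exact ⟨n, z, w, h5⟩

theorem main : MainStm.{u} :=
  mainAux apx' lim
    (Pool.Agent.Y508.FP.plane sup Pool.Agent.Y302.FP.cal half half0
      (rb Pool.Agent.Y302.FP.gapsum))
    (rig geo) (fin (cro poly) cro2 pyt) ifs cwb_diam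
    (fun _ h => Pool.Agent.Y508.FP.Fn.compact_hull h)

theorem main2 (H : Type u) [NormedAddCommGroup H] [InnerProductSpace ℝ H] (γ : ℝ → H)
    (hc : ContinuousOn γ (Icc 0 1)) (h01 : γ 0 = γ 1)
    (hlen : eVariationOn γ (Icc 0 1) = ENNReal.ofReal Real.pi) (m : ℝ) (hm0 : 0 ≤ m)
    (hm1 : m ≤ 1) (hm : ∀ x ∈ γ '' Icc 0 1, ∃ y ∈ γ '' Icc 0 1, m ≤ dist x y) :
    ∀ x ∈ γ '' Icc 0 1, ∀ y ∈ γ '' Icc 0 1, m ≤ dist x y → m + ((dist x y - m) / 4) ^ 5 ≤ 1 :=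
  quant apx2' lim2
    (plane2 sup Pool.Agent.Y302.FP.cal half half2 (rb Pool.Agent.Y302.FP.gapsum))
    H γ hc h01 hlen m hm0 hm1 hm

end Pool.Agent.KS676.FPH
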